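import Mathlib

/-!
# M1 final assembly, part A: spheres of dimension at least 2 are simply connected
-/

namespace M1Fin

open Metric Topology Set
open scoped unitInterval

variable {V : Type*} [NormedAddCommGroup V] [InnerProductSpace ℝ V]

theorem finA_norm_inv {w : V} (h : w ≠ 0) : ‖w‖⁻¹ • w ∈ sphere (0 : V) 1 := by
  rw [mem_sphere_zero_iff_norm, norm_smul, norm_inv, norm_norm, inv_mul_cancel₀ (norm_ne_zero_iff.2 h)]

/-- a loop missing a point is null-homotopic -/
theorem finA_missing {x : sphere (0 : V) 1} (c : Path x x) (u : sphere (0 : V) 1) (hc : ∀ t, c t ≠ u) :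
    c.Homotopic (Path.refl x) := by
  have hu : ‖(u : V)‖ = 1 := mem_sphere_zero_iff_norm.1 u.2
  set e := stereographic hu with he
  have hs : e.source = {u}ᶜ := by
    rw [he, stereographic_source]
  have hcs : ∀ t, c t ∈ e.source := by
    intro t
    rw [hs]
    exact hc t
  have hxs : x ∈ e.source := by
    have := hcs 0
    rwa [c.source] at this
  have e1 : e.source ≃ₜ e.target := e.toHomeomorphSourceTarget
  have e2 : e.target ≃ₜ (ℝ ∙ (u : V))ᗮ := (Homeomorph.setCongr (stereographic_target hu)).trans
    (Homeomorph.Set.univ _)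
  have hcon : SimplyConnectedSpace e.source := (e1.trans e2).toHomotopyEquiv.simplyConnectedSpace
  let c' : Path (⟨x, hxs⟩ : e.source) ⟨x, hxs⟩ :=
    { toFun := fun t => ⟨c t, hcs t⟩
      continuous_toFun := Continuous.subtype_mk c.continuous _
      source' := Subtype.ext c.source
      target' := Subtype.ext c.target }
  have h1 : c'.Homotopic (Path.refl _) := SimplyConnectedSpace.paths_homotopic _ _
  have h2 := h1.map (⟨Subtype.val, continuous_subtype_val⟩ : C(e.source, sphere (0 : V) 1))
  have h3 : c'.map (⟨Subtype.val, continuous_subtype_val⟩ : C(e.source, sphere (0 : V) 1)).continuous = c := by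
    ext t
    rfl
  have h4 : (Path.refl (⟨x, hxs⟩ : e.source)).map
      (⟨Subtype.val, continuous_subtype_val⟩ : C(e.source, sphere (0 : V) 1)).continuous = Path.refl x := by
    ext t
    rfl
  rw [h3, h4] at h2
  exact h2

/-- every path is homotopic to one missing a point -/
theorem finA_approx [FiniteDimensional ℝ V] (hV : 2 < Module.finrank ℝ V) {x y : sphere (0 : V) 1}
    (g : Path x y) : ∃ (c : Path x y) (u : sphere (0 : V) 1), g.Homotopic c ∧ ∀ t, c t ≠ u := by
  let f : C(I, V) := ⟨fun t => (g t : V), continuous_subtype_val.comp g.continuous⟩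
  have hf : ∀ t, ‖f t‖ = 1 := fun t => mem_sphere_zero_iff_norm.1 (g t).2
  have hlim := bernsteinApproximation_uniform f
  rw [Metric.tendsto_atTop] at hlim
  obtain ⟨N, hN⟩ := hlim (1 / 2) (by norm_num)
  obtain ⟨n, hn, hn0⟩ : ∃ n, N ≤ n ∧ n ≠ 0 := ⟨N + 1, by omega, by omega⟩
  have hd := hN n hn
  set P := bernsteinApproximation n f with hP
  have hPf : ∀ t, ‖P t - f t‖ < 1 / 2 := by
    intro t
    have h1 := ContinuousMap.dist_apply_le_dist (f := P) (g := f) t
    rw [dist_eq_norm] at h1
    linarith
  have hP0 : P 0 = f 0 := bernsteinApproximation.apply_zero n f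
  have hP1 : P 1 = f 1 := bernsteinApproximation.apply_one hn0 f
  -- the real curve
  let Q : ℝ × ℝ → V := fun q => q.1 • ∑ k : Fin (n + 1),
    ((n.choose k : ℝ) * q.2 ^ (k : ℕ) * (1 - q.2) ^ (n - k)) • f (bernstein.z k)
  have hQ : ContDiff ℝ 1 Q := by
    refine contDiff_fst.smul ?_
    refine ContDiff.sum fun k _ => ?_
    refine ContDiff.smul ?_ contDiff_const
    refine ContDiff.mul (ContDiff.mul contDiff_const (contDiff_snd.pow _)) ((contDiff_const.sub contDiff_snd).pow _)
  have hQP : ∀ (r : ℝ) (t : I), Q (r, (t : ℝ)) = r • P t := by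
    intro r t
    show r • _ = r • _
    rw [hP, bernsteinApproximation.apply]
    congr 1
    refine Finset.sum_congr rfl fun k _ => ?_
    rw [bernstein_apply]
  have hdim : Module.finrank ℝ (ℝ × ℝ) < Module.finrank ℝ V := by
    rw [Module.finrank_prod, Module.finrank_self]
    exact hV
  have hdense := hQ.dense_compl_range_of_finrank_lt_finrank hdim
  obtain ⟨v, hv⟩ := hdense.nonempty
  have hv0 : v ≠ 0 := by
    intro h0
    apply hv
    refine ⟨(0, 0), ?_⟩
    show (0 : ℝ) • _ = v
    rw [zero_smul, h0]
  have hPne : ∀ t, P t ≠ 0 := by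
    intro t h0
    have := hPf t
    rw [h0, zero_sub, norm_neg, hf t] at this
    norm_num at this
  have hwne : ∀ (s : I) (t : I), f t + (s : ℝ) • (P t - f t) ≠ 0 := by
    intro s t h0
    have h1 : f t = - ((s : ℝ) • (P t - f t)) := eq_neg_of_add_eq_zero_left h0
    have h2 := congrArg norm h1
    rw [hf t, norm_neg, norm_smul, Real.norm_of_nonneg s.2.1] at h2
    have h3 := hPf t
    have h4 := s.2.2
    have h5 := s.2.1
    nlinarith [norm_nonneg (P t - f t)]
  let c : Path x y :=
    { toFun := fun t => ⟨‖P t‖⁻¹ • P t, finA_norm_inv (hPne t)⟩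
      continuous_toFun := by
        refine Continuous.subtype_mk ?_ _
        exact (P.continuous.norm.inv₀ fun t => norm_ne_zero_iff.2 (hPne t)).smul P.continuous
      source' := by
        apply Subtype.ext
        show ‖P 0‖⁻¹ • P 0 = x
        rw [hP0, hf 0, inv_one, one_smul]
        exact congrArg Subtype.val g.source
      target' := by
        apply Subtype.ext
        show ‖P 1‖⁻¹ • P 1 = y
        rw [hP1, hf 1, inv_one, one_smul]
        exact congrArg Subtype.val g.target }
  refine ⟨c, ⟨‖v‖⁻¹ • v, finA_norm_inv hv0⟩, ?_, ?_⟩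
  · let W : I × I → V := fun q => f q.2 + (q.1 : ℝ) • (P q.2 - f q.2)
    have hW : Continuous W := by
      refine (f.continuous.comp continuous_snd).add ?_
      exact (continuous_subtype_val.comp continuous_fst).smul
        ((P.continuous.comp continuous_snd).sub (f.continuous.comp continuous_snd))
    refine ⟨{ toFun := fun q => ⟨‖W q‖⁻¹ • W q, finA_norm_inv (hwne q.1 q.2)⟩
              continuous_toFun := ?_
              map_zero_left := ?_
              map_one_left := ?_
              prop' := ?_ }⟩
    · refine Continuous.subtype_mk ?_ _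
      exact (hW.norm.inv₀ fun q => norm_ne_zero_iff.2 (hwne q.1 q.2)).smul hW
    · intro t
      apply Subtype.ext
      show ‖f t + (0 : ℝ) • (P t - f t)‖⁻¹ • (f t + (0 : ℝ) • (P t - f t)) = g t
      rw [zero_smul, add_zero, hf t, inv_one, one_smul]
      rfl
    · intro t
      apply Subtype.ext
      show ‖f t + (1 : ℝ) • (P t - f t)‖⁻¹ • (f t + (1 : ℝ) • (P t - f t)) = ‖P t‖⁻¹ • P t
      rw [one_smul, add_sub_cancel]
    · intro s t ht
      apply Subtype.ext
      show ‖f t + (s : ℝ) • (P t - f t)‖⁻¹ • (f t + (s : ℝ) • (P t - f t)) = g t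
      have hPt : P t = f t := by
        rcases ht with h | h
        · rw [h, hP0]
        · rw [h, hP1]
      rw [hPt, sub_self, smul_zero, add_zero, hf t, inv_one, one_smul]
      rfl
  · intro t ht
    have h1 : ‖P t‖⁻¹ • P t = ‖v‖⁻¹ • v := congrArg Subtype.val ht
    apply hv
    refine ⟨(‖v‖ * ‖P t‖⁻¹, (t : ℝ)), ?_⟩
    rw [hQP, mul_smul, h1, smul_smul, mul_inv_cancel₀ (norm_ne_zero_iff.2 hv0), one_smul]

/-- spheres of dimension at least two are simply connected -/
theorem finA_simply [FiniteDimensional ℝ V] (hV : 2 < Module.finrank ℝ V) :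
    SimplyConnectedSpace (sphere (0 : V) 1) := by
  rw [simply_connected_iff_loops_nullhomotopic]
  constructor
  · have h1 : IsPathConnected (sphere (0 : V) 1) := by
      apply isPathConnected_sphere
      · rw [← Module.finrank_eq_rank]
        exact_mod_cast (by omega : 1 < Module.finrank ℝ V)
      · norm_num
    exact isPathConnected_iff_pathConnectedSpace.1 h1
  · intro x g
    obtain ⟨c, u, h1, h2⟩ := finA_approx hV g
    exact h1.trans (finA_missing c u h2)

/-- two paths with the same ends in the unit sphere of `ℂ^n`, `n ≥ 2`, are homotopic -/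
theorem finA_paths {n : ℕ} (hn : 2 ≤ n) {x y : sphere (0 : EuclideanSpace ℂ (Fin n)) 1} (g g' : Path x y) :
    g.Homotopic g' := by
  have hr : 2 < Module.finrank ℝ (EuclideanSpace ℂ (Fin n)) := by
    rw [← Module.finrank_mul_finrank ℝ ℂ, Complex.finrank_real_complex, finrank_euclideanSpace, Fintype.card_fin]
    omega
  have := finA_simply hr
  exact SimplyConnectedSpace.paths_homotopic g g'

end M1Fin
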